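import Pool.Agent.BCS.Stmts2

/-!
# Row CNS of squad BCS: the scalar curvature of a smooth metric is continuous
-/

noncomputable section

open scoped ContDiff Topology
open Set

namespace Pool.Agent.BCS.H17

open Pool.Agent.BCS
open Pool.Agent.SecondKind (Coord pd inv christoffel curv ricci)

variable {m : ℕ}

theorem smooth_det {M : (Fin m → ℝ) → Matrix (Fin m) (Fin m) ℝ}
    (hM : ∀ i j, ContDiff ℝ ∞ (fun t => M t i j)) : ContDiff ℝ ∞ (fun t => (M t).det) := by
  have e : (fun t => (M t).det) = fun t => ∑ σ : Equiv.Perm (Fin m),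
      ((Equiv.Perm.sign σ : ℤ) : ℝ) * ∏ i, M t (σ i) i := by
    funext t
    rw [Matrix.det_apply']
  rw [e]
  exact ContDiff.sum fun σ _ => contDiff_const.mul (contDiff_prod fun i _ => hM _ _)

theorem smooth_pd {f : (Fin m → ℝ) → ℝ} (hf : ContDiff ℝ ∞ f) (k : Fin m) :
    ContDiff ℝ ∞ (pd k f) := by
  have h1 : ContDiff ℝ ∞ (fderiv ℝ f) := hf.fderiv_right (by simp)
  exact h1.clm_apply contDiff_const

theorem det_ne {A : Matrix (Fin m) (Fin m) ℝ}
    (hA : ∀ v : Fin m → ℝ, v ≠ 0 → 0 < ∑ i, ∑ j, A i j * v i * v j) : A.det ≠ 0 := by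
  intro h0
  obtain ⟨v, hv, hAv⟩ := Matrix.exists_mulVec_eq_zero_iff.mpr h0
  have h1 := hA v hv
  have h2 : ∑ i, ∑ j, A i j * v i * v j = 0 := by
    apply Finset.sum_eq_zero
    intro i _
    have h3 : ∑ j, A i j * v j = 0 := by
      have := congrFun hAv i
      simpa [Matrix.mulVec, dotProduct] using this
    have h4 : ∑ j, A i j * v i * v j = v i * ∑ j, A i j * v j := by
      rw [Finset.mul_sum]
      exact Finset.sum_congr rfl fun j _ => by ring
    rw [h4, h3, mul_zero]
  linarith

theorem smooth_inv {g : Coord m} (hg : ∀ i j, ContDiff ℝ ∞ (fun t => g t i j))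
    (hd : ∀ t, (Matrix.of (g t)).det ≠ 0) (k l : Fin m) : ContDiff ℝ ∞ (inv g k l) := by
  have e : inv g k l = fun t => ((Matrix.of (g t)).det)⁻¹ *
      (Matrix.updateRow (Matrix.of (g t)) l (Pi.single k 1)).det := by
    funext t
    unfold inv
    rw [Matrix.inv_def, Matrix.smul_apply, Matrix.adjugate_apply, smul_eq_mul,
      Ring.inverse_eq_inv']
  rw [e]
  have h1 : ContDiff ℝ ∞ (fun t => (Matrix.of (g t)).det) := smooth_det hg
  refine (h1.inv hd).mul (smooth_det fun i j => ?_)
  by_cases hi : i = l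
  · subst hi
    simp only [Matrix.updateRow_self]
    exact contDiff_const
  · simp only [Matrix.updateRow_ne hi, Matrix.of_apply]
    exact hg i j

theorem smooth_christoffel {g : Coord m} (hg : ∀ i j, ContDiff ℝ ∞ (fun t => g t i j))
    (hd : ∀ t, (Matrix.of (g t)).det ≠ 0) (k i j : Fin m) :
    ContDiff ℝ ∞ (christoffel g k i j) := by
  unfold christoffel
  refine ContDiff.sum fun l _ => ?_
  refine ((smooth_inv hg hd k l).mul ?_).div_const 2
  exact ((smooth_pd (hg j l) i).add (smooth_pd (hg i l) j)).sub (smooth_pd (hg i j) l)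

theorem smooth_curv {g : Coord m} (hg : ∀ i j, ContDiff ℝ ∞ (fun t => g t i j))
    (hd : ∀ t, (Matrix.of (g t)).det ≠ 0) (i j k l : Fin m) :
    ContDiff ℝ ∞ (curv g i j k l) := by
  unfold curv
  refine ((smooth_pd (smooth_christoffel hg hd l j k) i).sub
    (smooth_pd (smooth_christoffel hg hd l i k) j)).add (ContDiff.sum fun p _ => ?_)
  exact ((smooth_christoffel hg hd l i p).mul (smooth_christoffel hg hd p j k)).sub
    ((smooth_christoffel hg hd l j p).mul (smooth_christoffel hg hd p i k))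

theorem cns : CnsStmt := by
  intro m h hF z
  have hg : ∀ i j, ContDiff ℝ ∞ (fun t => h z t i j) := fun i j =>
    (hF.smooth i j).comp (contDiff_const.prodMk contDiff_id)
  have hd : ∀ t, (Matrix.of (h z t)).det ≠ 0 := fun t => det_ne (hF.pos z t)
  have h1 : ContDiff ℝ ∞ (fun t => scal (h z) t) := by
    unfold scal ricci
    refine ContDiff.sum fun j _ => ContDiff.sum fun k _ => ?_
    exact (smooth_inv hg hd j k).mul (ContDiff.sum fun i _ => smooth_curv hg hd i j k i)
  exact h1.continuous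

end Pool.Agent.BCS.H17
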